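import Mathlib
import Pool.Agent.Y272.LC.Stm

set_option autoImplicit false

open Complex Filter Topology Metric Set

namespace Pool.Agent.Y394.LC.FarHom

open Pool.Agent.Y272.LC

theorem exists_log (g : ℝ × ℝ → ℂ)
    (hg : Continuous g) (h0 : ∀ x, g x ≠ 0) :
    ∃ L : ℝ × ℝ → ℂ, Continuous L ∧ ∀ x, Complex.exp (L x) = g x := by
  have h := Complex.isCoveringMapOn_exp.existsUnique_continuousMap_lifts (A := ℝ × ℝ)
    (⟨g, hg⟩ : C(ℝ × ℝ, ℂ)) (a₀ := 0) (e₀ := Complex.log (g 0)) (Complex.exp_log (h0 0))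
    (fun a => by simpa using h0 a)
  obtain ⟨F, ⟨_, hF⟩, _⟩ := h
  refine ⟨F, F.continuous, fun x => ?_⟩
  have := congrFun hF x
  simpa using this

/-- A continuous function on a preconnected set all of whose exponentials agree is constant. -/
theorem const_of_exp_eq {S : Set ℝ} (hS : IsPreconnected S) (D : ℝ → ℂ)
    (hD : ContinuousOn D S) (c : ℂ) (h : ∀ x ∈ S, Complex.exp (D x) = c) :
    ∀ x ∈ S, ∀ y ∈ S, D x = D y := by
  intro x hx y hy
  have hsub : D '' S ⊆ Set.range (fun n : ℤ => D x + n * (2 * Real.pi * I)) := by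
    rintro _ ⟨z, hz, rfl⟩
    have := (h z hz).trans (h x hx).symm
    rw [Complex.exp_eq_exp_iff_exists_int] at this
    obtain ⟨n, hn⟩ := this
    exact ⟨n, hn.symm⟩
  have hc : (D '' S).Countable := (Set.countable_range _).mono hsub
  exact hc.isTotallyDisconnected (D '' S) subset_rfl (hS.image D hD) (mem_image_of_mem D hx)
    (mem_image_of_mem D hy)

theorem rect (F : ℝ → ℝ → ℂ) (p q : ℝ) (hpq : p ≤ q)
    (hF : ContinuousOn (fun x : ℝ × ℝ => F x.1 x.2) (Icc 0 1 ×ˢ Icc p q))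
    (h0 : ∀ τ ∈ Icc (0 : ℝ) 1, ∀ s ∈ Icc p q, F τ s ≠ 0) (L0 : ℝ → ℂ)
    (hL : ContinuousOn L0 (Icc p q)) (he : ∀ s ∈ Icc p q, Complex.exp (L0 s) = F 0 s) :
    ∃ M : ℝ → ℝ → ℂ, (Continuous fun x : ℝ × ℝ => M x.1 x.2) ∧
      (∀ τ ∈ Icc (0 : ℝ) 1, ∀ s ∈ Icc p q, Complex.exp (M τ s) = F τ s) ∧
      ∀ s ∈ Icc p q, M 0 s = L0 s := by
  set G : ℝ × ℝ → ℂ := fun x => F (projIcc 0 1 zero_le_one x.1) (projIcc p q hpq x.2) with hG
  have hGc : Continuous G := by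
    have h1 : Continuous fun x : ℝ × ℝ => (((projIcc (0 : ℝ) 1 zero_le_one x.1 : ℝ),
        (projIcc p q hpq x.2 : ℝ)) : ℝ × ℝ) := by
      refine Continuous.prodMk ?_ ?_
      · exact continuous_subtype_val.comp (continuous_projIcc.comp continuous_fst)
      · exact continuous_subtype_val.comp (continuous_projIcc.comp continuous_snd)
    exact hF.comp_continuous h1 (fun x => ⟨(projIcc (0 : ℝ) 1 zero_le_one x.1).2,
      (projIcc p q hpq x.2).2⟩)
  obtain ⟨L, hLc, hLe⟩ := exists_log G hGc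
    (fun x => h0 _ (projIcc (0 : ℝ) 1 zero_le_one x.1).2 _ (projIcc p q hpq x.2).2)
  have hGe : ∀ τ ∈ Icc (0 : ℝ) 1, ∀ s ∈ Icc p q, G (τ, s) = F τ s := by
    intro τ hτ s hs
    simp only [hG]
    rw [projIcc_of_mem _ hτ, projIcc_of_mem _ hs]
  have hz : (0 : ℝ) ∈ Icc (0 : ℝ) 1 := ⟨le_refl _, zero_le_one⟩
  have hp : p ∈ Icc p q := ⟨le_refl _, hpq⟩
  have hD : ∀ x ∈ Icc p q, ∀ y ∈ Icc p q, L (0, x) - L0 x = L (0, y) - L0 y := by
    apply const_of_exp_eq isPreconnected_Icc (fun x => L (0, x) - L0 x) _ 1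
    · intro x hx
      rw [Complex.exp_sub, hLe, hGe 0 hz x hx, he x hx]
      exact div_self (h0 0 hz x hx)
    · exact (hLc.comp (by fun_prop : Continuous fun x : ℝ => ((0 : ℝ), x))).continuousOn.sub hL
  refine ⟨fun τ s => L (τ, s) - (L (0, p) - L0 p), ?_, ?_, ?_⟩
  · exact (hLc.comp (by fun_prop : Continuous fun x : ℝ × ℝ => (x.1, x.2))).sub continuous_const
  · intro τ hτ s hs
    rw [Complex.exp_sub, hLe, hGe τ hτ s hs, Complex.exp_sub, hLe, hGe 0 hz p hp, he p hp,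
      div_self (h0 0 hz p hp), div_one]
  · intro s hs
    have := hD s hs p hp
    linear_combination this

theorem ends (u v : ℝ → ℂ) (hu : Continuous u) (hv : Continuous v)
    (h : ∀ τ ∈ Icc (0 : ℝ) 1, Complex.exp (u τ) = Complex.exp (v τ)) (h0 : u 0 = v 0) :
    u 1 = v 1 := by
  have := const_of_exp_eq (isPreconnected_Icc (a := (0 : ℝ)) (b := 1)) (fun τ => u τ - v τ)
    (hu.sub hv).continuousOn 1 (fun τ hτ => by
      rw [Complex.exp_sub, h τ hτ]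
      exact div_self (Complex.exp_ne_zero _)) 1 ⟨zero_le_one, le_refl _⟩ 0 ⟨le_refl _, zero_le_one⟩
  simp only [h0, sub_self] at this
  exact sub_eq_zero.mp this

theorem hom : St_Hom := by
  intro T0 T1 C z l a b hl hab hT0 hT1 hC hz hm hn hn' hH
  obtain ⟨L0, L1, L2, c0, c1, c2, e0, e1, e2, m0, m1, m2⟩ := hH
  have hz2 : ∀ p q : ℝ, ContinuousOn (fun x : ℝ × ℝ => z x.1) (Icc (0 : ℝ) 1 ×ˢ Icc p q) :=
    fun p q => hz.comp continuousOn_fst (fun x hx => hx.1)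
  obtain ⟨M0, k0, x0, y0⟩ := rect (fun τ s => T0 τ s - z τ) 0 l hl (hT0.sub (hz2 0 l))
    (fun τ hτ s hs => sub_ne_zero.mpr (hn τ hτ s hs).1) L0 c0 e0
  obtain ⟨M1, k1, x1, y1⟩ := rect (fun τ s => T1 τ s - z τ) 0 l hl (hT1.sub (hz2 0 l))
    (fun τ hτ s hs => sub_ne_zero.mpr (hn τ hτ s hs).2) L1 c1 e1
  obtain ⟨M2, k2, x2, y2⟩ := rect (fun τ s => C τ s - z τ) a b hab (hC.sub (hz2 a b))
    (fun τ hτ s hs => sub_ne_zero.mpr (hn' τ hτ s hs)) L2 c2 e2
  have h1 : (1 : ℝ) ∈ Icc (0 : ℝ) 1 := ⟨zero_le_one, le_refl _⟩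
  have i0 : (0 : ℝ) ∈ Icc 0 l := ⟨le_refl _, hl⟩
  have il : l ∈ Icc 0 l := ⟨hl, le_refl _⟩
  have ia : a ∈ Icc a b := ⟨le_refl _, hab⟩
  have ib : b ∈ Icc a b := ⟨hab, le_refl _⟩
  have col : ∀ (M : ℝ → ℝ → ℂ), (Continuous fun x : ℝ × ℝ => M x.1 x.2) → ∀ s : ℝ,
      Continuous fun τ => M τ s := fun M hM s =>
    hM.comp (by fun_prop : Continuous fun τ : ℝ => (τ, s))
  have row : ∀ (M : ℝ → ℝ → ℂ), (Continuous fun x : ℝ × ℝ => M x.1 x.2) → 
      Continuous fun s => M 1 s := fun M hM =>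
    hM.comp (by fun_prop : Continuous fun s : ℝ => ((1 : ℝ), s))
  refine ⟨M0 1, M1 1, M2 1, (row M0 k0).continuousOn, (row M1 k1).continuousOn,
    (row M2 k2).continuousOn, x0 1 h1, x1 1 h1, x2 1 h1, ?_, ?_, ?_⟩
  · refine ends (fun τ => M0 τ 0) (fun τ => M1 τ 0) (col M0 k0 0) (col M1 k1 0)
      (fun τ hτ => ?_) ?_
    · rw [x0 τ hτ 0 i0, x1 τ hτ 0 i0, (hm τ hτ).1]
    · rw [y0 0 i0, y1 0 i0, m0]
  · refine ends (fun τ => M0 τ l) (fun τ => M2 τ a) (col M0 k0 l) (col M2 k2 a)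
      (fun τ hτ => ?_) ?_
    · rw [x0 τ hτ l il, x2 τ hτ a ia, (hm τ hτ).2.1]
    · rw [y0 l il, y2 a ia, m1]
  · refine ends (fun τ => M1 τ l) (fun τ => M2 τ b) (col M1 k1 l) (col M2 k2 b)
      (fun τ hτ => ?_) ?_
    · rw [x1 τ hτ l il, x2 τ hτ b ib, (hm τ hτ).2.2]
    · rw [y1 l il, y2 b ib, m2]

theorem far : St_Far := by
  intro T0 T1 C l a b r z w hl hab hT0 hT1 hC hm0 hm1 hm2 h0 h1 h2 hr
  have hwz : w - z ≠ 0 := by
    intro h
    have h' : z - w = 0 := by linear_combination -h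
    rw [h', norm_zero] at hr
    have : 0 ≤ r := le_trans (norm_nonneg _) (h0 0 ⟨le_refl _, hl⟩)
    linarith
  have hnw : ‖w - z‖ = ‖z - w‖ := norm_sub_rev _ _
  have hpos : 0 < ‖w - z‖ := norm_pos_iff.mpr hwz
  have hq : ∀ u : ℂ, ‖u - w‖ ≤ r → (u - z) / (w - z) ∈ slitPlane := by
    intro u hu
    have e : (u - z) / (w - z) = 1 + (u - w) / (w - z) := by
      field_simp
      ring
    rw [e]
    apply mem_slitPlane_of_norm_lt_one
    rw [norm_div, div_lt_one hpos, hnw]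
    exact lt_of_le_of_lt hu hr
  have hcont : ∀ (f : ℝ → ℂ) (S : Set ℝ), ContinuousOn f S → (∀ s ∈ S, ‖f s - w‖ ≤ r) →
      ContinuousOn (fun s => Complex.log ((f s - z) / (w - z)) + Complex.log (w - z)) S := by
    intro f S hf hb
    refine ContinuousOn.add (ContinuousOn.clog ((hf.sub continuousOn_const).div_const _)
      (fun s hs => hq _ (hb s hs))) continuousOn_const
  have hexp : ∀ u : ℂ, ‖u - w‖ ≤ r →
      Complex.exp (Complex.log ((u - z) / (w - z)) + Complex.log (w - z)) = u - z := by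
    intro u hu
    rw [Complex.exp_add, Complex.exp_log (slitPlane_ne_zero (hq u hu)), Complex.exp_log hwz,
      div_mul_cancel₀ _ hwz]
  refine ⟨fun s => Complex.log ((T0 s - z) / (w - z)) + Complex.log (w - z),
    fun s => Complex.log ((T1 s - z) / (w - z)) + Complex.log (w - z),
    fun s => Complex.log ((C s - z) / (w - z)) + Complex.log (w - z),
    hcont T0 _ hT0 h0, hcont T1 _ hT1 h1, hcont C _ hC h2,
    fun s hs => hexp _ (h0 s hs), fun s hs => hexp _ (h1 s hs), fun s hs => hexp _ (h2 s hs),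
    ?_, ?_, ?_⟩
  · simp only [hm0]
  · simp only [hm1]
  · simp only [hm2]

end Pool.Agent.Y394.LC.FarHom
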